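import Mathlib

/-! Auxiliary results for the simultaneous packing and covering constant of a renorming of `ℓ₂`. -/

open scoped RealInnerProductSpace

namespace Pool.Agent.MP749e55

section Abstract

variable {E : Type*} [NormedAddCommGroup E] [InnerProductSpace ℝ E]

/-- In an infinite-dimensional real inner product space every finite set has a common unit normal. -/
lemma exists_unit_orth (hinf : ¬ FiniteDimensional ℝ E) {s : Set E} (hs : s.Finite) :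
    ∃ v : E, ‖v‖ = 1 ∧ ∀ x ∈ s, ⟪x, v⟫ = 0 := by
  classical
  have hfd : FiniteDimensional ℝ (Submodule.span ℝ s) := FiniteDimensional.span_of_finite ℝ hs
  have hne : (Submodule.span ℝ s)ᗮ ≠ ⊥ := by
    intro h
    rw [Submodule.orthogonal_eq_bot_iff] at h
    apply hinf
    rw [h] at hfd
    exact Module.Finite.of_surjective (Submodule.subtype (⊤ : Submodule ℝ E))
      (fun x => ⟨⟨x, trivial⟩, rfl⟩)
  obtain ⟨w, hw, hw0⟩ := Submodule.exists_mem_ne_zero_of_ne_bot hne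
  refine ⟨(‖w‖⁻¹ : ℝ) • w, ?_, ?_⟩
  · rw [norm_smul, norm_inv, norm_norm, inv_mul_cancel₀ (norm_ne_zero_iff.mpr hw0)]
  · intro x hx
    rw [inner_smul_right, (Submodule.mem_orthogonal _ _).mp hw x (Submodule.subset_span hx), mul_zero]

/-- Averaging inequality behind Kottman's constant of a Hilbert space. -/
lemma sum_sep {ι : Type*} (G : Finset ι) (c : ι → E) (B : ℝ)
    (hB : ∀ p ∈ G, ∀ q ∈ G, p ≠ q → B ≤ ‖c p - c q‖ ^ 2) :
    ‖∑ p ∈ G, c p‖ ^ 2 ≤ (G.card : ℝ) * ∑ p ∈ G, ‖c p‖ ^ 2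
      - (G.card : ℝ) * ((G.card : ℝ) - 1) * B / 2 := by
  classical
  have h1 : ∑ p ∈ G, ∑ q ∈ G, ‖c p - c q‖ ^ 2
      = 2 * ((G.card : ℝ) * ∑ p ∈ G, ‖c p‖ ^ 2) - 2 * ‖∑ p ∈ G, c p‖ ^ 2 := by
    have e1 : ∀ p ∈ G, ∑ q ∈ G, ‖c p - c q‖ ^ 2
        = (G.card : ℝ) * ‖c p‖ ^ 2 + ∑ q ∈ G, ‖c q‖ ^ 2 - 2 * ⟪c p, ∑ q ∈ G, c q⟫ := by
      intro p _
      have : ∀ q ∈ G, ‖c p - c q‖ ^ 2 = ‖c p‖ ^ 2 + ‖c q‖ ^ 2 - 2 * ⟪c p, c q⟫ := by
        intro q _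
        rw [norm_sub_sq_real]; ring
      rw [Finset.sum_congr rfl this, Finset.sum_sub_distrib, Finset.sum_add_distrib,
        Finset.sum_const, nsmul_eq_mul, ← Finset.mul_sum, inner_sum]
    rw [Finset.sum_congr rfl e1, Finset.sum_sub_distrib, Finset.sum_add_distrib,
      Finset.sum_const, nsmul_eq_mul, ← Finset.mul_sum, ← Finset.mul_sum, ← sum_inner,
      real_inner_self_eq_norm_sq]
    ring
  have h2 : (G.card : ℝ) * ((G.card : ℝ) - 1) * B ≤ ∑ p ∈ G, ∑ q ∈ G, ‖c p - c q‖ ^ 2 := by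
    have e2 : ∀ p ∈ G, ((G.card : ℝ) - 1) * B ≤ ∑ q ∈ G, ‖c p - c q‖ ^ 2 := by
      intro p hp
      rw [← Finset.add_sum_erase G _ hp]
      have : ∑ q ∈ G.erase p, B ≤ ∑ q ∈ G.erase p, ‖c p - c q‖ ^ 2 := by
        apply Finset.sum_le_sum
        intro q hq
        exact hB p hp q (Finset.mem_of_mem_erase hq) (Finset.ne_of_mem_erase hq).symm
      rw [Finset.sum_const, nsmul_eq_mul, Finset.card_erase_of_mem hp] at this
      have hc : 1 ≤ G.card := Finset.card_pos.mpr ⟨p, hp⟩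
      rw [Nat.cast_sub hc, Nat.cast_one] at this
      simpa using this
    calc (G.card : ℝ) * ((G.card : ℝ) - 1) * B = ∑ p ∈ G, ((G.card : ℝ) - 1) * B := by
          rw [Finset.sum_const, nsmul_eq_mul]; ring
      _ ≤ _ := Finset.sum_le_sum e2
  linarith

/-- Numerical contradiction in the finite case. -/
lemma orig_contra (a u β : ℝ) (hu : 0 ≤ u) (hβ : β < 1 / 1000)
    (h1 : (1 - a) ^ 4 + (7 / 4 + u - 2 * β) ^ 2 ≤ 4.00002) (h2 : 16 ≤ a ^ 4 + u ^ 2) : False := by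
  have hX : 1.748 + u ≤ 7 / 4 + u - 2 * β := by linarith
  have hX2 : (1.748 + u) ^ 2 ≤ (7 / 4 + u - 2 * β) ^ 2 := by
    apply pow_le_pow_left₀ (by linarith) hX
  have hw4 : (1 - a) ^ 4 + (1.748 + u) ^ 2 ≤ 4.00002 := by linarith
  have hw0 : 0 ≤ (1 - a) ^ 4 := by positivity
  have hu1 : u ≤ 0.253 := by nlinarith
  have hw : (1 - a) ^ 4 ≤ 0.944516 := by nlinarith
  have hw2 : (1 - a) ^ 2 ≤ 0.9719 := by nlinarith [sq_nonneg ((1 - a) ^ 2)]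
  have hw1 : |1 - a| ≤ 0.986 := by
    apply abs_le_of_sq_le_sq _ (by norm_num)
    norm_num
    nlinarith
  have ha := abs_le.mp hw1
  have ha2 : a ^ 2 ≤ 3.9442 := by nlinarith
  have ha4 : a ^ 4 ≤ 3.9442 ^ 2 := by
    have : a ^ 4 = (a ^ 2) ^ 2 := by ring
    rw [this]
    exact pow_le_pow_left₀ (sq_nonneg a) ha2 2
  have hu2 : u ^ 2 ≤ 0.253 ^ 2 := pow_le_pow_left₀ hu hu1 2
  norm_num at ha4 hu2
  linarith

/-- Numerical contradiction in the infinite case. -/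
lemma inf_contra (a q β : ℝ) (hq : 1.99998 ≤ q) (hβ : β ≤ 0.01) (hY : 0 ≤ 7 / 4 + q + 2 * β)
    (h1 : (1 - a) ^ 4 + q ^ 2 ≤ 4.00002) (h2 : 16 ≤ a ^ 4 + (7 / 4 + q + 2 * β) ^ 2) : False := by
  have hq2 : 3.9999 ≤ q ^ 2 := by nlinarith
  have hw0 : 0 ≤ (1 - a) ^ 4 := by positivity
  have hq3 : q ≤ 2.00001 := by nlinarith
  have hw : (1 - a) ^ 4 ≤ 0.00016 := by linarith
  have hw2 : (1 - a) ^ 2 ≤ 0.0144 := by nlinarith [sq_nonneg ((1 - a) ^ 2)]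
  have hw1 : |1 - a| ≤ 0.12 := by
    apply abs_le_of_sq_le_sq _ (by norm_num)
    norm_num
    linarith
  have ha := abs_le.mp hw1
  have ha2 : a ^ 2 ≤ 1.2544 := by nlinarith
  have ha4 : a ^ 4 ≤ 1.2544 ^ 2 := by
    have : a ^ 4 = (a ^ 2) ^ 2 := by ring
    rw [this]
    exact pow_le_pow_left₀ (sq_nonneg a) ha2 2
  have hY2 : (7 / 4 + q + 2 * β) ^ 2 ≤ 3.77001 ^ 2 := by
    apply pow_le_pow_left₀ hY
    linarith
  norm_num at ha4 hY2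
  linarith


/-- Contradiction when infinitely many points of the packing are nearly closest. -/
lemma inf_case (b : E) (hb : ‖b‖ ^ 2 = 7 / 4) (F : Set E) (hF : F.Infinite) (a : E → ℝ) (c : E → E)
    (h1 : ∀ p ∈ F, (1 - a p) ^ 4 + (‖c p‖ ^ 2) ^ 2 ≤ 4.00002)
    (hsep : ∀ p ∈ F, ∀ q ∈ F, p ≠ q → 16 ≤ (a p - a q) ^ 4 + (‖c p - c q‖ ^ 2) ^ 2)
    (h2 : ∀ p ∈ F, 16 ≤ (a p) ^ 4 + (7 / 4 + ‖c p‖ ^ 2 + 2 * ⟪b, c p⟫) ^ 2) : False := by
  classical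
  have hq : ∀ p ∈ F, ‖c p‖ ^ 2 ≤ 2.00001 := by
    intro p hp
    have := h1 p hp
    have h3 : 0 ≤ (1 - a p) ^ 4 := by positivity
    have h4 : 0 ≤ ‖c p‖ ^ 2 := by positivity
    nlinarith
  have ha : ∀ p ∈ F, |a p| ≤ 3 := by
    intro p hp
    have := h1 p hp
    have h3 : 0 ≤ (‖c p‖ ^ 2) ^ 2 := by positivity
    have h4 : (1 - a p) ^ 4 ≤ 4.00002 := by linarith
    have h5 : (1 - a p) ^ 2 ≤ 4 := by nlinarith [sq_nonneg ((1 - a p) ^ 2)]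
    have h6 : |1 - a p| ≤ 2 := by
      apply abs_le_of_sq_le_sq _ (by norm_num)
      linarith
    have h7 := abs_le.mp h6
    apply abs_le.mpr
    constructor <;> linarith
  let g : E → ℤ × ℤ := fun p => (⌊a p * 100⌋, ⌊‖c p‖ ^ 2 * 10 ^ 6⌋)
  have himage : (g '' F).Finite := by
    apply (Set.finite_Icc ((-300 : ℤ), (0 : ℤ)) ((300 : ℤ), (2000010 : ℤ))).subset
    rintro _ ⟨p, hp, rfl⟩
    have h3 := abs_le.mp (ha p hp)
    have h4 := hq p hp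
    have h5 : 0 ≤ ‖c p‖ ^ 2 := by positivity
    refine ⟨⟨?_, ?_⟩, ⟨?_, ?_⟩⟩
    · show (-300 : ℤ) ≤ ⌊a p * 100⌋
      apply Int.le_floor.mpr
      push_cast
      linarith
    · show (0 : ℤ) ≤ ⌊‖c p‖ ^ 2 * 10 ^ 6⌋
      apply Int.le_floor.mpr
      push_cast
      positivity
    · show ⌊a p * 100⌋ ≤ (300 : ℤ)
      have : (⌊a p * 100⌋ : ℝ) ≤ a p * 100 := Int.floor_le _
      have h6 : (⌊a p * 100⌋ : ℝ) ≤ (300 : ℤ) := by push_cast; linarith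
      exact_mod_cast h6
    · show ⌊‖c p‖ ^ 2 * 10 ^ 6⌋ ≤ (2000010 : ℤ)
      have : (⌊‖c p‖ ^ 2 * 10 ^ 6⌋ : ℝ) ≤ ‖c p‖ ^ 2 * 10 ^ 6 := Int.floor_le _
      have h6 : (⌊‖c p‖ ^ 2 * 10 ^ 6⌋ : ℝ) ≤ (2000010 : ℤ) := by push_cast; linarith
      exact_mod_cast h6
  obtain ⟨y, hy⟩ : ∃ y, (F ∩ g ⁻¹' {y}).Infinite := by
    by_contra hcon
    push Not at hcon
    exact hF (Set.Finite.of_finite_fibers g himage (fun x _ => hcon x))
  obtain ⟨G, hGsub, hGcard⟩ := hy.exists_subset_card_eq (10 ^ 6)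
  have hGF : ∀ p ∈ G, p ∈ F := fun p hp => (hGsub hp).1
  have hgy : ∀ p ∈ G, g p = y := fun p hp => (hGsub hp).2
  have hcard : (G.card : ℝ) = 10 ^ 6 := by rw [hGcard]; norm_num
  have hclose : ∀ p ∈ G, ∀ q ∈ G, |a p - a q| ≤ 1 / 100 ∧ |‖c p‖ ^ 2 - ‖c q‖ ^ 2| ≤ 1 / 10 ^ 6 := by
    intro p hp q hq'
    have h3 : g p = g q := by rw [hgy p hp, hgy q hq']
    have h4 : ⌊a p * 100⌋ = ⌊a q * 100⌋ := congrArg Prod.fst h3
    have h5 : ⌊‖c p‖ ^ 2 * 10 ^ 6⌋ = ⌊‖c q‖ ^ 2 * 10 ^ 6⌋ := congrArg Prod.snd h3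
    have h6 := abs_lt.mp (Int.abs_sub_lt_one_of_floor_eq_floor h4)
    have h7 := abs_lt.mp (Int.abs_sub_lt_one_of_floor_eq_floor h5)
    constructor
    · apply abs_le.mpr
      constructor <;> linarith
    · apply abs_le.mpr
      constructor <;> linarith
  have hB : ∀ p ∈ G, ∀ q ∈ G, p ≠ q → (3.99999 : ℝ) ≤ ‖c p - c q‖ ^ 2 := by
    intro p hp q hq' hpq
    have h3 := hsep p (hGF p hp) q (hGF q hq') hpq
    have h4 := (hclose p hp q hq').1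
    have h5 : (a p - a q) ^ 2 ≤ 1 / 10000 := by
      have := sq_le_sq' (abs_le.mp h4).1 (abs_le.mp h4).2
      linarith
    have h6 : (a p - a q) ^ 4 ≤ 1 / 10000 := by nlinarith [sq_nonneg (a p - a q)]
    have h7 : 0 ≤ ‖c p - c q‖ ^ 2 := by positivity
    nlinarith
  have hS := sum_sep G c 3.99999 hB
  rw [hcard] at hS
  have hsum_le : ∑ p ∈ G, ‖c p‖ ^ 2 ≤ 10 ^ 6 * 2.00001 := by
    have : ∑ p ∈ G, ‖c p‖ ^ 2 ≤ ∑ p ∈ G, (2.00001 : ℝ) :=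
      Finset.sum_le_sum (fun p hp => hq p (hGF p hp))
    rw [Finset.sum_const, nsmul_eq_mul, hcard] at this
    exact this
  have hS0 : 0 ≤ ‖∑ p ∈ G, c p‖ ^ 2 := by positivity
  obtain ⟨p0, hp0, hp0q⟩ : ∃ p ∈ G, (1.99999 : ℝ) ≤ ‖c p‖ ^ 2 := by
    by_contra hcon
    push Not at hcon
    have : ∑ p ∈ G, ‖c p‖ ^ 2 ≤ ∑ p ∈ G, (1.99999 : ℝ) :=
      Finset.sum_le_sum (fun p hp => (hcon p hp).le)
    rw [Finset.sum_const, nsmul_eq_mul, hcard] at this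
    norm_num at hS this
    nlinarith
  have hS1 : ‖∑ p ∈ G, c p‖ ^ 2 ≤ 5000 ^ 2 := by
    norm_num at hS hsum_le ⊢
    nlinarith
  have hS2 : ‖∑ p ∈ G, c p‖ ≤ 5000 := by
    apply le_of_sq_le_sq hS1 (by norm_num)
  have hbn : ‖b‖ ≤ 1.4 := by
    apply le_of_sq_le_sq _ (by norm_num)
    rw [hb]; norm_num
  obtain ⟨p1, hp1, hp1β⟩ : ∃ p ∈ G, ⟪b, c p⟫ ≤ 0.01 := by
    by_contra hcon
    push Not at hcon
    have h3 : ∑ p ∈ G, (0.01 : ℝ) ≤ ∑ p ∈ G, ⟪b, c p⟫ :=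
      Finset.sum_le_sum (fun p hp => (hcon p hp).le)
    rw [Finset.sum_const, nsmul_eq_mul, hcard, ← inner_sum] at h3
    have h4 := real_inner_le_norm b (∑ p ∈ G, c p)
    have h5 : ‖b‖ * ‖∑ p ∈ G, c p‖ ≤ 1.4 * 5000 :=
      mul_le_mul hbn hS2 (norm_nonneg _) (by norm_num)
    norm_num at h3 h5
    linarith
  have hq1 : 1.99998 ≤ ‖c p1‖ ^ 2 := by
    have := (abs_le.mp (hclose p1 hp1 p0 hp0).2).1
    norm_num at this hp0q ⊢
    linarith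
  apply inf_contra (a p1) (‖c p1‖ ^ 2) ⟪b, c p1⟫ hq1 hp1β _ (h1 p1 (hGF p1 hp1)) (h2 p1 (hGF p1 hp1))
  have : ‖b + c p1‖ ^ 2 = 7 / 4 + ‖c p1‖ ^ 2 + 2 * ⟪b, c p1⟫ := by
    rw [norm_add_sq_real, hb]; ring
  rw [← this]; positivity


/-- Expansion of the fourth power of the norm at `e + b - p`. -/
lemma key_formula (e : E) (he : ‖e‖ = 1) (N : Seminorm ℝ E)
    (hN : ∀ x, N x ^ 4 = ⟪e, x⟫ ^ 4 + (‖x‖ ^ 2 - ⟪e, x⟫ ^ 2) ^ 2) (b p : E)
    (hb0 : ⟪e, b⟫ = 0) (hb : ‖b‖ ^ 2 = 7 / 4) :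
    N (e + b - p) ^ 4 = (1 - ⟪e, p⟫) ^ 4
      + (7 / 4 + (‖p‖ ^ 2 - ⟪e, p⟫ ^ 2) - 2 * ⟪b, p⟫) ^ 2 := by
  rw [hN]
  have h1 : ⟪e, e + b - p⟫ = 1 - ⟪e, p⟫ := by
    rw [inner_sub_right, inner_add_right, hb0, real_inner_self_eq_norm_sq, he]; ring
  have h2 : ‖e + b - p‖ ^ 2 = 1 + 7 / 4 - 2 * ⟪e, p⟫ - 2 * ⟪b, p⟫ + ‖p‖ ^ 2 := by
    rw [norm_sub_sq_real, norm_add_sq_real, hb0, hb, he, inner_add_left]; ring
  rw [h1, h2]
  ring

/-- A pure real-number step: a definite gain in the fourth power gives a definite gain. -/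
lemma gain (x y D ε Δ : ℝ) (hx0 : 0 ≤ x) (hy0 : 0 ≤ y) (hΔpos : 0 < Δ) (hΔ1 : Δ ≤ 1 / 1000)
    (hε : ε = Δ ^ 2 / 1000) (hD2 : D ≤ 3 / 2) (h1 : D - ε < x) (h9 : x ^ 4 + Δ ^ 2 ≤ y ^ 4) :
    D + ε ≤ y := by
  by_contra hcon
  push Not at hcon
  have hε1 : ε ≤ 1 / 1000 := by rw [hε]; nlinarith
  have hεpos : 0 < ε := by rw [hε]; positivity
  have hy2 : y ≤ 2 := by linarith
  have hxy : x ≤ y := by
    by_contra hlt
    push Not at hlt
    have := pow_lt_pow_left₀ hlt hy0 (by norm_num : (4:ℕ) ≠ 0)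
    nlinarith [sq_nonneg Δ]
  have hdiff : y ^ 4 - x ^ 4 ≤ 32 * (y - x) := by
    have e1 : y ^ 4 - x ^ 4 = (y - x) * ((y + x) * (y ^ 2 + x ^ 2)) := by ring
    rw [e1, mul_comm 32]
    apply mul_le_mul_of_nonneg_left _ (by linarith)
    have hx2 : x ≤ 2 := hxy.trans hy2
    have e2 : y ^ 2 + x ^ 2 ≤ 8 := by nlinarith
    have e3 : y + x ≤ 4 := by linarith
    calc (y + x) * (y ^ 2 + x ^ 2) ≤ 4 * 8 :=
          mul_le_mul e3 e2 (by positivity) (by norm_num)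
      _ = 32 := by norm_num
  have hfinal : Δ ^ 2 ≤ 32 * (2 * ε) := by linarith
  rw [hε] at hfinal
  have := pow_pos hΔpos 2
  linarith

/-- `(X + Δ)^2` dominates `X^2 + Δ^2` for nonnegative `X`, `Δ`. -/
lemma sq_gain (A X Y Δ : ℝ) (hX0 : 0 ≤ X) (hΔ : 0 ≤ Δ) (h7 : X + Δ ≤ Y) :
    A + X ^ 2 + Δ ^ 2 ≤ A + Y ^ 2 := by
  have h8 : (X + Δ) ^ 2 ≤ Y ^ 2 := pow_le_pow_left₀ (by linarith) h7 2
  nlinarith [mul_nonneg hX0 hΔ]

theorem no_dense_aux (hinf : ¬ FiniteDimensional ℝ E) (e : E) (he : ‖e‖ = 1) (N : Seminorm ℝ E)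
    (hN : ∀ x, N x ^ 4 = ⟪e, x⟫ ^ 4 + (‖x‖ ^ 2 - ⟪e, x⟫ ^ 2) ^ 2)
    (r : ℝ) (hr : r ≤ 1.414214) (P : Set E) (h0 : (0 : E) ∈ P)
    (hsep : ∀ x ∈ P, ∀ y ∈ P, x ≠ y → 2 ≤ N (x - y))
    (hden : ∀ x, ∃ p ∈ P, N (x - p) ≤ r) : False := by
  classical
  have hNn : ∀ x, 0 ≤ N x := fun x => apply_nonneg N x
  -- the orthogonal part
  have hort : ∀ x : E, 0 ≤ ‖x‖ ^ 2 - ⟪e, x⟫ ^ 2 := by
    intro x
    have h1 := abs_real_inner_le_norm e x
    rw [he, one_mul] at h1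
    have h2 : ⟪e, x⟫ ^ 2 ≤ ‖x‖ ^ 2 := by
      rw [← sq_abs ⟪e, x⟫]
      exact pow_le_pow_left₀ (abs_nonneg _) h1 2
    linarith
  let S : Set E := {b | ⟪e, b⟫ = 0 ∧ ‖b‖ ^ 2 = 7 / 4}
  have hSne : ∃ b : E, b ∈ S := by
    obtain ⟨v, hv1, hv2⟩ := exists_unit_orth hinf (Set.finite_singleton e)
    refine ⟨Real.sqrt (7 / 4) • v, ?_, ?_⟩
    · rw [inner_smul_right, hv2 e (Set.mem_singleton e), mul_zero]
    · rw [norm_smul, hv1, mul_one, Real.norm_eq_abs, sq_abs, Real.sq_sqrt (by norm_num)]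
  have hr0 : 0 ≤ r := by
    obtain ⟨p, _, hp⟩ := hden 0
    exact le_trans (hNn _) hp
  have hfar : ∀ b ∈ S, r < N (e + b) := by
    intro b hb
    by_contra hcon
    push Not at hcon
    have h1 := key_formula e he N hN b 0 hb.1 hb.2
    rw [sub_zero] at h1
    simp only [inner_zero_right, norm_zero] at h1
    have h2 : N (e + b) ^ 4 ≤ 1.414214 ^ 4 :=
      pow_le_pow_left₀ (hNn _) (hcon.trans hr) 4
    rw [h1] at h2
    norm_num at h2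
  have hcov : ∀ b ∈ S, ∃ p ∈ P, p ≠ 0 ∧ N (e + b - p) ≤ r := by
    intro b hb
    obtain ⟨p, hp, hpr⟩ := hden (e + b)
    refine ⟨p, hp, ?_, hpr⟩
    rintro rfl
    rw [sub_zero] at hpr
    exact absurd (hfar b hb) (not_lt.mpr hpr)
  let T : Set ℝ := {t | ∃ b ∈ S, ∀ p ∈ P, p ≠ 0 → t ≤ N (e + b - p)}
  have hTbdd : BddAbove T := by
    refine ⟨r, ?_⟩
    rintro t ⟨b, hb, ht⟩
    obtain ⟨p, hp, hp0, hpr⟩ := hcov b hb
    exact (ht p hp hp0).trans hpr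
  have hTne : (0 : ℝ) ∈ T := by
    obtain ⟨b, hb⟩ := hSne
    exact ⟨b, hb, fun p _ _ => hNn _⟩
  set D : ℝ := sSup T with hD
  have hD0 : 0 ≤ D := le_csSup hTbdd hTne
  have hDr : D ≤ r := by
    apply csSup_le ⟨0, hTne⟩
    rintro t ⟨b, hb, ht⟩
    obtain ⟨p, hp, hp0, hpr⟩ := hcov b hb
    exact (ht p hp hp0).trans hpr
  have hD32 : D ≤ 3 / 2 := hDr.trans (hr.trans (by norm_num))
  -- parameters
  obtain ⟨m, hm⟩ : ∃ m : ℝ, m = 1 / 10 ^ 7 := ⟨_, rfl⟩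
  obtain ⟨co, hco⟩ : ∃ co : ℝ, co = (1 - m ^ 2) / (1 + m ^ 2) := ⟨_, rfl⟩
  obtain ⟨si, hsi⟩ : ∃ si : ℝ, si = 2 * m / (1 + m ^ 2) := ⟨_, rfl⟩
  have hm2 : (0 : ℝ) < 1 + m ^ 2 := by positivity
  have hcs : co ^ 2 + si ^ 2 = 1 := by
    rw [hco, hsi]; field_simp; ring
  have hmpos : 0 < m := by rw [hm]; positivity
  have h1co : 1 - co = 2 * m ^ 2 / (1 + m ^ 2) := by
    rw [hco]; field_simp; ring
  have hcolow : m ^ 2 ≤ 1 - co := by
    rw [h1co, le_div_iff₀ hm2]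
    have : m ^ 2 ≤ 1 := by rw [hm]; norm_num
    nlinarith [sq_nonneg m]
  have hcohigh : 1 - co ≤ 2 * m ^ 2 := by
    rw [h1co]
    apply div_le_self (by positivity)
    nlinarith [sq_nonneg m]
  obtain ⟨Δ, hΔ⟩ : ∃ Δ : ℝ, Δ = 2 * (1 - co) * (1 / 1000) := ⟨_, rfl⟩
  have hΔpos : 0 < Δ := by
    rw [hΔ]
    have : 0 < m ^ 2 := by positivity
    have : 0 < 1 - co := by linarith
    positivity
  have hΔ1 : Δ ≤ 1 / 1000 := by
    rw [hΔ]
    have : m ^ 2 ≤ 1 / 4 := by rw [hm]; norm_num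
    nlinarith
  obtain ⟨ε, hε⟩ : ∃ ε : ℝ, ε = Δ ^ 2 / 1000 := ⟨_, rfl⟩
  have hεpos : 0 < ε := by rw [hε]; positivity
  obtain ⟨t, ⟨b, hbS, htb⟩, htD⟩ : ∃ t ∈ T, D - ε < t :=
    exists_lt_of_lt_csSup ⟨0, hTne⟩ (by linarith)
  obtain ⟨hb0, hb2⟩ := hbS
  let F : Set E := {p | p ∈ P ∧ p ≠ 0 ∧ N (e + b - p) ≤ D + 1 / 10 ^ 6}
  have hF4 : ∀ p ∈ F, (1 - ⟪e, p⟫) ^ 4
      + (7 / 4 + (‖p‖ ^ 2 - ⟪e, p⟫ ^ 2) - 2 * ⟪b, p⟫) ^ 2 ≤ 4.00002 := by
    intro p hp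
    rw [← key_formula e he N hN b p hb0 hb2]
    have h1 : N (e + b - p) ≤ 1.414215 := by
      have := hp.2.2
      norm_num at this hr ⊢
      linarith
    have h2 : N (e + b - p) ^ 4 ≤ 1.414215 ^ 4 := pow_le_pow_left₀ (hNn _) h1 4
    norm_num at h2 ⊢
    linarith
  have hP16 : ∀ p ∈ P, p ≠ 0 → 16 ≤ ⟪e, p⟫ ^ 4 + (‖p‖ ^ 2 - ⟪e, p⟫ ^ 2) ^ 2 := by
    intro p hp hp0
    have h1 := hsep p hp 0 h0 hp0
    rw [sub_zero] at h1
    have h2 : (2 : ℝ) ^ 4 ≤ N p ^ 4 := pow_le_pow_left₀ (by norm_num) h1 4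
    rw [hN p] at h2
    norm_num at h2
    exact h2
  by_cases hfin : F.Finite
  · -- finite case
    by_cases hex : ∃ p ∈ F, ⟪b, p⟫ < 1 / 1000
    · obtain ⟨p, hp, hpβ⟩ := hex
      exact orig_contra ⟪e, p⟫ (‖p‖ ^ 2 - ⟪e, p⟫ ^ 2) ⟪b, p⟫ (hort p) hpβ (hF4 p hp)
        (hP16 p hp.1 hp.2.1)
    · push Not at hex
      obtain ⟨v, hv1, hv2⟩ := exists_unit_orth hinf ((hfin.insert b).insert e)
      have hev : ⟪e, v⟫ = 0 := hv2 e (by simp)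
      have hbv : ⟪b, v⟫ = 0 := hv2 b (by simp)
      have hFv : ∀ p ∈ F, ⟪p, v⟫ = 0 := fun p hp => hv2 p (by simp [hp])
      obtain ⟨b', hb'⟩ : ∃ b' : E, b' = co • b + (si * ‖b‖) • v := ⟨_, rfl⟩
      have hb'0 : ⟪e, b'⟫ = 0 := by
        rw [hb', inner_add_right, inner_smul_right, inner_smul_right, hb0, hev]; ring
      have hb'2 : ‖b'‖ ^ 2 = 7 / 4 := by
        rw [hb', norm_add_sq_real, norm_smul, norm_smul, inner_smul_left, inner_smul_right, hbv,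
          hv1]
        simp only [Real.norm_eq_abs, abs_mul, abs_norm, mul_one, mul_zero, mul_pow, sq_abs, hb2]
        linear_combination (7 / 4) * hcs
      have hbb' : ‖b - b'‖ ≤ 1 / (2 * 10 ^ 6) := by
        have h1 : ‖b - b'‖ ^ 2 = 2 * (7 / 4) * (1 - co) := by
          rw [norm_sub_sq_real, hb'2, hb2, hb', inner_add_right, inner_smul_right,
            inner_smul_right, hbv, real_inner_self_eq_norm_sq, hb2]
          ring
        apply le_of_sq_le_sq _ (by norm_num)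
        rw [h1]
        have h3 : 2 * (7 / 4) * (1 - co) ≤ 7 * m ^ 2 := by linarith
        refine h3.trans ?_
        rw [hm]
        norm_num
      have hNbb' : N (b - b') = ‖b - b'‖ := by
        have h1 := hN (b - b')
        rw [inner_sub_right, hb0, hb'0] at h1
        have h2 : N (b - b') ^ 4 = ‖b - b'‖ ^ 4 := by rw [h1]; ring
        exact (pow_left_inj₀ (hNn _) (norm_nonneg _) (by norm_num)).mp h2
      have hmem : D + ε ∈ T := by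
        refine ⟨b', ⟨hb'0, hb'2⟩, ?_⟩
        intro p hp hp0
        by_cases hpF : p ∈ F
        · -- the distance to `p` has grown
          have h1 : D - ε < N (e + b - p) := lt_of_lt_of_le htD (htb p hp hp0)
          have h2 : ⟪b', p⟫ = co * ⟪b, p⟫ := by
            rw [hb', inner_add_left, inner_smul_left, inner_smul_left, real_inner_comm p v,
              hFv p hpF]
            simp
          have h3 := key_formula e he N hN b p hb0 hb2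
          have h4 := key_formula e he N hN b' p hb'0 hb'2
          have h5 : 1 / 1000 ≤ ⟪b, p⟫ := hex p hpF
          obtain ⟨X, hX⟩ : ∃ X : ℝ, X = 7 / 4 + (‖p‖ ^ 2 - ⟪e, p⟫ ^ 2) - 2 * ⟪b, p⟫ := ⟨_, rfl⟩
          have hX0 : 0 ≤ X := by
            have h6 : X = ‖b - (p - ⟪e, p⟫ • e)‖ ^ 2 := by
              rw [norm_sub_sq_real, norm_sub_sq_real, inner_sub_right, inner_smul_right,
                inner_smul_right, norm_smul, real_inner_comm e b, hb0, hb2, he, hX,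
                real_inner_comm e p]
              simp only [Real.norm_eq_abs, mul_one, sq_abs]
              ring
            rw [h6]; positivity
          have h7 : X + Δ ≤ 7 / 4 + (‖p‖ ^ 2 - ⟪e, p⟫ ^ 2) - 2 * ⟪b', p⟫ := by
            rw [h2, hX, hΔ]
            nlinarith [mul_le_mul_of_nonneg_left h5 (by linarith [sq_nonneg m] : (0:ℝ) ≤ 1 - co)]
          have h9 : N (e + b - p) ^ 4 + Δ ^ 2 ≤ N (e + b' - p) ^ 4 := by
            rw [h3, h4, ← hX]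
            exact sq_gain _ X _ Δ hX0 hΔpos.le h7
          exact gain _ _ D ε Δ (hNn _) (hNn _) hΔpos hΔ1 hε hD32 h1 h9
        · have h1 : D + 1 / 10 ^ 6 < N (e + b - p) := by
            by_contra hcon
            push Not at hcon
            exact hpF ⟨hp, hp0, hcon⟩
          have h2 : N (e + b - p) ≤ N (e + b' - p) + N (b - b') := by
            have : e + b - p = (e + b' - p) + (b - b') := by abel
            rw [this]
            exact map_add_le_add N _ _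
          rw [hNbb'] at h2
          have h3 : ε ≤ 1 / (2 * 10 ^ 6) := by
            rw [hε]
            have : Δ ^ 2 ≤ (1 / 1000) ^ 2 := pow_le_pow_left₀ hΔpos.le hΔ1 2
            norm_num at this ⊢
            linarith
          norm_num at h1 h3 hbb'
          linarith
      have := le_csSup hTbdd hmem
      linarith
  · -- infinite case
    refine inf_case b hb2 F hfin (fun p => ⟪e, p⟫) (fun p => p - ⟪e, p⟫ • e - b) ?_ ?_ ?_
    · intro p hp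
      have h1 := hF4 p hp
      have h2 : ‖p - ⟪e, p⟫ • e - b‖ ^ 2 = 7 / 4 + (‖p‖ ^ 2 - ⟪e, p⟫ ^ 2) - 2 * ⟪b, p⟫ := by
        rw [norm_sub_sq_real, norm_sub_sq_real, inner_sub_left, inner_smul_right,
          inner_smul_left, norm_smul, hb0, hb2, he, real_inner_comm e p, real_inner_comm p b]
        simp only [Real.norm_eq_abs, mul_one, sq_abs, mul_zero]
        ring
      show (1 - ⟪e, p⟫) ^ 4 + (‖p - ⟪e, p⟫ • e - b‖ ^ 2) ^ 2 ≤ 4.00002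
      rw [h2]; exact h1
    · intro p hp q hq hpq
      have h1 := hsep p hp.1 q hq.1 hpq
      have h2 : (2 : ℝ) ^ 4 ≤ N (p - q) ^ 4 := pow_le_pow_left₀ (by norm_num) h1 4
      rw [hN (p - q)] at h2
      have h3 : ‖(p - ⟪e, p⟫ • e - b) - (q - ⟪e, q⟫ • e - b)‖ ^ 2
          = ‖p - q‖ ^ 2 - ⟪e, p - q⟫ ^ 2 := by
        have : (p - ⟪e, p⟫ • e - b) - (q - ⟪e, q⟫ • e - b) = (p - q) - ⟪e, p - q⟫ • e := by
          rw [inner_sub_right, sub_smul]; abel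
        rw [this, norm_sub_sq_real, inner_smul_right, norm_smul, he, real_inner_comm e (p - q)]
        simp only [Real.norm_eq_abs, mul_one, sq_abs]
        ring
      show 16 ≤ (⟪e, p⟫ - ⟪e, q⟫) ^ 4 + (‖(p - ⟪e, p⟫ • e - b) - (q - ⟪e, q⟫ • e - b)‖ ^ 2) ^ 2
      rw [h3, ← inner_sub_right]
      norm_num at h2
      exact h2
    · intro p hp
      have h1 := hP16 p hp.1 hp.2.1
      have h2 : 7 / 4 + ‖p - ⟪e, p⟫ • e - b‖ ^ 2 + 2 * ⟪b, p - ⟪e, p⟫ • e - b⟫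
          = ‖p‖ ^ 2 - ⟪e, p⟫ ^ 2 := by
        rw [norm_sub_sq_real, norm_sub_sq_real, inner_sub_left, inner_smul_right,
          inner_smul_left, norm_smul, hb0, hb2, he, inner_sub_right, inner_sub_right,
          inner_smul_right, real_inner_self_eq_norm_sq, hb2, real_inner_comm e b, hb0,
          real_inner_comm e p, real_inner_comm p b]
        simp only [Real.norm_eq_abs, mul_one, sq_abs, mul_zero]
        ring
      show 16 ≤ ⟪e, p⟫ ^ 4 + (7 / 4 + ‖p - ⟪e, p⟫ • e - b‖ ^ 2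
        + 2 * ⟪b, p - ⟪e, p⟫ • e - b⟫) ^ 2
      rw [h2]; exact h1


end Abstract

section Norm4

variable {E : Type*} [NormedAddCommGroup E] [InnerProductSpace ℝ E]

instance fact_one_le_four : Fact ((1 : ENNReal) ≤ 4) := ⟨by norm_num⟩

/-- The linear map `x ↦ (⟪e, x⟫, x - ⟪e, x⟫ e)` into the `ℓ₄`-sum `ℝ ⊕₄ E`. -/
noncomputable def splitMap (e : E) : E →ₗ[ℝ] WithLp 4 (ℝ × E) where
  toFun x := WithLp.toLp 4 (⟪e, x⟫, x - ⟪e, x⟫ • e)
  map_add' x y := by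
    apply (WithLp.equiv 4 (ℝ × E)).injective
    ext
    · simp [inner_add_right]
    · simp [inner_add_right, add_smul]; abel
  map_smul' c x := by
    apply (WithLp.equiv 4 (ℝ × E)).injective
    ext
    · simp [inner_smul_right]
    · simp [inner_smul_right, smul_sub, mul_smul]

/-- The norm `x ↦ (⟪e,x⟫⁴ + ‖x - ⟪e,x⟫e‖⁴)^{1/4}`. -/
noncomputable def norm4 (e : E) : Seminorm ℝ E := (normSeminorm ℝ (WithLp 4 (ℝ × E))).comp (splitMap e)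

lemma norm4_pow (e : E) (he : ‖e‖ = 1) (x : E) :
    norm4 e x ^ 4 = ⟪e, x⟫ ^ 4 + (‖x‖ ^ 2 - ⟪e, x⟫ ^ 2) ^ 2 := by
  have h1 : norm4 e x = ‖splitMap e x‖ := rfl
  have h4 : (4 : ENNReal).toReal = 4 := by norm_num
  rw [h1, WithLp.prod_norm_eq_add (by rw [h4]; norm_num), h4]
  have h5 : (splitMap e x).fst = ⟪e, x⟫ := rfl
  have h6 : (splitMap e x).snd = x - ⟪e, x⟫ • e := rfl
  rw [h5, h6]
  have h7 : ‖x - ⟪e, x⟫ • e‖ ^ 2 = ‖x‖ ^ 2 - ⟪e, x⟫ ^ 2 := by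
    rw [norm_sub_sq_real, inner_smul_right, norm_smul, he, real_inner_comm e x]
    simp only [Real.norm_eq_abs, mul_one, sq_abs]
    ring
  rw [← Real.rpow_natCast (_ ^ (1/4 : ℝ)) 4, ← Real.rpow_mul (by positivity)]
  norm_num
  have h8 : ‖x - ⟪e, x⟫ • e‖ ^ 4 = (‖x - ⟪e, x⟫ • e‖ ^ 2) ^ 2 := by ring
  rw [h8, h7]
  have h9 : |⟪e, x⟫| ^ 4 = (|⟪e, x⟫| ^ 2) ^ 2 := by ring
  rw [h9, sq_abs]; ring

end Norm4

end Pool.Agent.MP749e55
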